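import Pool.Agent.L5helper33.ConvGeo

set_option autoImplicit false

namespace Pool.Agent.Results.MP_6c3374_co.PolynomialLogBound

open Finset

/-- The Euclidean plane. -/
abbrev Plane := EuclideanSpace ℝ (Fin 2)

/-- No three points of `P` are collinear. -/
def GeneralPosition (P : Finset Plane) : Prop :=
  ∀ a ∈ P, ∀ b ∈ P, ∀ c ∈ P, a ≠ b → b ≠ c → a ≠ c → ¬ Collinear ℝ ({a, b, c} : Set Plane)

/-- For every set of `n` points in general position and every colouring of the pairs of points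
with `r` colours, some `p` of the points are in convex position and all pairs among them have
the same colour. -/
def Forces (r p n : ℕ) : Prop :=
  ∀ P : Finset Plane, P.card = n → GeneralPosition P → ∀ χ : Sym2 Plane → Fin r,
    ∃ K ⊆ P, K.card = p ∧ ConvexIndependent ℝ (fun x : (↑K : Set Plane) => (x : Plane)) ∧
      ∃ c : Fin r, ∀ u ∈ K, ∀ v ∈ K, u ≠ v → χ s(u, v) = c

/-- The least `n` with `Forces r p n`. -/
noncomputable def g (r p : ℕ) : ℕ := sInf {n | Forces r p n}

open Pool.Agent.L5helper33.Conv in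
lemma forces_bound (r q : ℕ) (hr : 2 ≤ r) (hq : 1 ≤ q) :
    Forces r (q + 2) (2 * (r * q) ^ (r * (q * q))) := by
  intro P hcard hgp χ
  obtain ⟨ε, hε⟩ := exists_eps P
  have gp : ∀ a ∈ P, ∀ b ∈ P, ∀ c ∈ P, el ε a < el ε b → el ε b < el ε c → ori a b c ≠ 0 := by
    intro a ha b hb c hc hab hbc h0
    have n1 : a ≠ b := fun h => by rw [h] at hab; exact lt_irrefl _ hab
    have n2 : b ≠ c := fun h => by rw [h] at hbc; exact lt_irrefl _ hbc
    have n3 : a ≠ c := fun h => by rw [h] at hab; exact lt_asymm hab hbc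
    exact hgp a ha b hb c hc n1 n2 n3 (collinear_of_ori n1 h0)
  obtain ⟨σ, c, K, _, hKP, hK, hall, hmono⟩ := core hr hq P χ gp hε (r * (q * q)) P
    (fun _ => ∅) (fun _ _ => 0) (by simp) (by simp) subset_rfl (by simp) (by simp) (by simp)
    (by simp) (le_of_eq hcard.symm)
  exact ⟨K, hKP, hK, convexIndependent_of_allOr hall
    (fun a ha b hb => hε a (hKP ha) b (hKP hb)), c, hmono⟩

/-- For every number `r ≥ 2` of colours and every `p ≥ 3`, the number `g r p` is well defined
and `log g r p ≤ 1 + r (p - 2) ^ 2 log (r (p - 2))`. -/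
theorem result (r p : ℕ) (hr : 2 ≤ r) (hp : 3 ≤ p) :
    Forces r p (g r p) ∧
    Real.logb 2 (g r p) ≤ 1 + r * ((p : ℝ) - 2) ^ 2 * Real.logb 2 (r * ((p : ℝ) - 2)) := by
  obtain ⟨q, rfl⟩ : ∃ q, p = q + 2 := ⟨p - 2, by omega⟩
  have hq : 1 ≤ q := by omega
  have hF := forces_bound r q hr hq
  have hmem : Forces r (q + 2) (g r (q + 2)) := Nat.sInf_mem (s := {n | Forces r (q + 2) n}) ⟨_, hF⟩
  have hle : g r (q + 2) ≤ 2 * (r * q) ^ (r * (q * q)) := Nat.sInf_le hF
  refine ⟨hmem, ?_⟩
  have hpos : 0 < g r (q + 2) := by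
    rcases Nat.eq_zero_or_pos (g r (q + 2)) with h0 | h0
    · exfalso
      rw [h0] at hmem
      have hr0 : 0 < r := by omega
      obtain ⟨K, hK, hKc, _⟩ := hmem ∅ rfl (fun a ha => absurd ha (notMem_empty a))
        (fun _ => ⟨0, hr0⟩)
      rw [subset_empty.mp hK, card_empty] at hKc
      omega
    · exact h0
  have e1 : ((q + 2 : ℕ) : ℝ) - 2 = q := by push_cast; ring
  rw [e1]
  have hrq : (0 : ℝ) < r * q := by
    have h1 : (0 : ℝ) < r := by exact_mod_cast (by omega : 0 < r)
    have h2 : (0 : ℝ) < q := by exact_mod_cast (by omega : 0 < q)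
    positivity
  have hle' : ((g r (q + 2) : ℕ) : ℝ) ≤ 2 * (r * q) ^ (r * (q * q)) := by exact_mod_cast hle
  calc Real.logb 2 (g r (q + 2)) ≤ Real.logb 2 (2 * (r * q) ^ (r * (q * q))) :=
        Real.logb_le_logb_of_le (by norm_num) (by exact_mod_cast hpos) hle'
    _ = 1 + r * (q : ℝ) ^ 2 * Real.logb 2 (r * q) := by
        rw [Real.logb_mul (by norm_num) (by positivity), Real.logb_self_eq_one (by norm_num),
          Real.logb_pow]
        push_cast
        ring

end Pool.Agent.Results.MP_6c3374_co.PolynomialLogBound
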